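import Pool.Agent.R405.QS3

/-!
# Vojta's inequality on smooth quadric surfaces at one place: algebra
-/

set_option autoImplicit false
set_option linter.unusedSectionVars false

namespace Pool.Agent.N168.QS

open MvPolynomial NumberField IsDedekindDomain Height
open Pool.Agent.W180.OP (Pl av wt nrm le_nrm nrm_pos nrm_nonneg exists_nrm lam lam_eq wt_nonneg
  not_small)
open Pool.Agent.R405 (dot dot_add dot_smul exv Good)
open Pool.Agent.R405.QS

section alg

variable {M : Type} [Field M]

/-- decomposable vectors -/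
theorem rank1 {u : Fin 4 → M} (h : u 0 * u 3 = u 1 * u 2) (hu : u ≠ 0) :
    ∃ s t : Fin 2 → M, s ≠ 0 ∧ t ≠ 0 ∧ u 0 = s 0 * t 0 ∧ u 1 = s 0 * t 1 ∧ u 2 = s 1 * t 0 ∧
      u 3 = s 1 * t 1 := by
  by_cases h01 : u 0 = 0 ∧ u 1 = 0
  · refine ⟨![0, 1], ![u 2, u 3], ?_, ?_, ?_, ?_, ?_, ?_⟩
    · intro h0
      exact one_ne_zero (congrFun h0 1)
    · intro h0
      apply hu
      funext i
      rcases (by decide : ∀ l : Fin 4, l = 0 ∨ l = 1 ∨ l = 2 ∨ l = 3) i with rfl | rfl | rfl | rfl
      · exact h01.1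
      · exact h01.2
      · exact congrFun h0 0
      · exact congrFun h0 1
    · simp [h01.1]
    · simp [h01.2]
    · simp
    · simp
  · by_cases h0 : u 0 = 0
    · have h1 : u 1 ≠ 0 := fun h1 => h01 ⟨h0, h1⟩
      have h2 : u 2 = 0 := by
        rw [h0, zero_mul] at h
        exact (mul_eq_zero.1 h.symm).resolve_left h1
      refine ⟨![1, u 3 / u 1], ![u 0, u 1], ?_, ?_, ?_, ?_, ?_, ?_⟩
      · intro h3
        exact one_ne_zero (congrFun h3 0)
      · intro h3
        exact h1 (congrFun h3 1)
      · simp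
      · simp
      · simp [h0, h2]
      · simp [h1]
    · refine ⟨![1, u 2 / u 0], ![u 0, u 1], ?_, ?_, ?_, ?_, ?_, ?_⟩
      · intro h3
        exact one_ne_zero (congrFun h3 0)
      · intro h3
        exact h0 (congrFun h3 0)
      · simp
      · simp
      · simp [h0]
      · show u 3 = u 2 / u 0 * u 1
        field_simp
        linear_combination h

/-- the point of two lines -/
theorem meet {L : Type} [Field L] {e0 e1 e2 e3 s0 s1 t0 t1 : L} (hs : s0 ≠ 0 ∨ s1 ≠ 0)
    (ht : t0 ≠ 0 ∨ t1 ≠ 0) (h1 : s1 * e0 = s0 * e2) (h2 : s1 * e1 = s0 * e3)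
    (h3 : t1 * e0 = t0 * e1) (h4 : t1 * e2 = t0 * e3) :
    ∃ c : L, e0 = c * (s0 * t0) ∧ e1 = c * (s0 * t1) ∧ e2 = c * (s1 * t0) ∧
      e3 = c * (s1 * t1) := by
  rcases hs with hs | hs <;> rcases ht with ht | ht
  · refine ⟨e0 / (s0 * t0), ?_, ?_, ?_, ?_⟩
    · field_simp
    · field_simp
      linear_combination -h3
    · field_simp
      linear_combination -h1
    · field_simp
      linear_combination -t0 * h2 - s1 * h3
  · refine ⟨e1 / (s0 * t1), ?_, ?_, ?_, ?_⟩
    · field_simp
      linear_combination h3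
    · field_simp
    · field_simp
      linear_combination -t1 * h1 + s1 * h3
    · field_simp
      linear_combination -h2
  · refine ⟨e2 / (s1 * t0), ?_, ?_, ?_, ?_⟩
    · field_simp
      linear_combination h1
    · field_simp
      linear_combination t0 * h2 - s0 * h4
    · field_simp
    · field_simp
      linear_combination -h4
  · refine ⟨e3 / (s1 * t1), ?_, ?_, ?_, ?_⟩
    · field_simp
      linear_combination t1 * h1 + s0 * h4
    · field_simp
      linear_combination h2
    · field_simp
      linear_combination h4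
    · field_simp

/-- the linear form -/
noncomputable def lin (g : Fin 4 → M) : MvPolynomial (Fin 4) M := ∑ j, C (g j) * X j

theorem lin_hom (g : Fin 4 → M) : (lin g).IsHomogeneous 1 := by
  refine MvPolynomial.IsHomogeneous.sum _ _ _ fun j _ => ?_
  have := (isHomogeneous_C (Fin 4) (g j)).mul (isHomogeneous_X M j)
  simpa using this

theorem eval_lin (g x : Fin 4 → M) : eval x (lin g) = dot g x := by
  simp [lin, dot]

/-- values of linear forms at points over extensions -/
noncomputable def D {L : Type} [Field L] [Algebra M L] (y : Fin 4 → L) (g : Fin 4 → M) : L :=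
  ∑ j, algebraMap M L (g j) * y j

theorem aeval_lin {L : Type} [Field L] [Algebra M L] (y : Fin 4 → L) (g : Fin 4 → M) :
    aeval y (lin g) = D y g := by
  simp [lin, D]

section

variable {L : Type} [Field L] [Algebra M L] (y : Fin 4 → L)

theorem D_add (g g' : Fin 4 → M) : D y (g + g') = D y g + D y g' := by
  unfold D
  rw [← Finset.sum_add_distrib]
  exact Finset.sum_congr rfl fun j _ => by rw [Pi.add_apply, map_add, add_mul]

theorem D_smul (c : M) (g : Fin 4 → M) : D y (c • g) = algebraMap M L c * D y g := by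
  unfold D
  rw [Finset.mul_sum]
  exact Finset.sum_congr rfl fun j _ => by rw [Pi.smul_apply, smul_eq_mul, map_mul, mul_assoc]

theorem D_row0 (E : Fin 4 → Fin 4 → M) (a : Fin 2 → M) : D y (row E a 0) =
    algebraMap M L (a 0) * D y (E 0) + algebraMap M L (a 1) * D y (E 2) := by
  simp only [row, Matrix.cons_val, D_add, D_smul]

theorem D_row1 (E : Fin 4 → Fin 4 → M) (a : Fin 2 → M) : D y (row E a 1) =
    algebraMap M L (a 0) * D y (E 1) + algebraMap M L (a 1) * D y (E 3) := by
  simp only [row, Matrix.cons_val, D_add, D_smul]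

theorem D_col0 (E : Fin 4 → Fin 4 → M) (b : Fin 2 → M) : D y (row (swp E) b 0) =
    algebraMap M L (b 0) * D y (E 0) + algebraMap M L (b 1) * D y (E 1) := by
  rw [D_row0]
  simp [swp]

theorem D_col1 (E : Fin 4 → Fin 4 → M) (b : Fin 2 → M) : D y (row (swp E) b 1) =
    algebraMap M L (b 0) * D y (E 2) + algebraMap M L (b 1) * D y (E 3) := by
  rw [D_row1]
  simp [swp]

theorem D_bf (E : Fin 4 → Fin 4 → M) (a b : Fin 2 → M) : D y (bf E a b) =
    algebraMap M L (a 0 * b 0) * D y (E 0) + algebraMap M L (a 0 * b 1) * D y (E 1) +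
      algebraMap M L (a 1 * b 0) * D y (E 2) + algebraMap M L (a 1 * b 1) * D y (E 3) := by
  simp only [bf, D_add, D_smul]

variable {y}

theorem zero_of {E : Fin 4 → Fin 4 → M} (hE : (Matrix.of E).det ≠ 0) (h : ∀ l, D y (E l) = 0) :
    y = 0 := by
  classical
  have h1 : ((Matrix.of E).map (algebraMap M L)).det ≠ 0 := by
    have h2 : ((Matrix.of E).map (algebraMap M L)).det = algebraMap M L (Matrix.of E).det := by
      rw [RingHom.map_det]
      rfl
    rw [h2]
    exact (map_ne_zero _).2 hE
  refine Matrix.eq_zero_of_mulVec_eq_zero h1 ?_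
  funext l
  exact h l

end

/-- forms without common zeros on the quadric -/
theorem sep {ι : Type} [Fintype ι] (q : MvPolynomial (Fin 4) M) (hq : q.IsHomogeneous 2)
    (g : ι → Fin 2 → Fin 4 → M)
    (h : ∀ (L : Type) [Field L] [Algebra M L] (y : Fin 4 → L), aeval y q = 0 →
      (∀ i n, D y (g i n) = 0) → y = 0) (f : AbsoluteValue M ℝ) :
    ∃ C : ℝ, 0 ≤ C ∧ ∀ x : Fin 4 → M, x ≠ 0 → eval x q = 0 → ∃ i, lm f (g i) x ≤ C := by
  obtain ⟨c, hc, hx⟩ := not_small (K := M) (ι := Option (ι × Fin 2)) (n := 4) (by norm_num)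
    (fun o => o.elim q (fun p => lin (g p.1 p.2))) (fun o => o.elim 2 (fun _ => 1))
    (by
      rintro (_ | p)
      · exact hq
      · exact lin_hom _)
    (by
      intro L _ _ y hy
      refine h L y (hy none) fun i n => ?_
      have h1 := hy (some (i, n))
      change aeval y (lin (g i n)) = 0 at h1
      rwa [aeval_lin] at h1) f
  refine ⟨max 0 (-Real.log c), le_max_left _ _, fun x hx0 hxq => ?_⟩
  have hN : 0 < nrm f x := nrm_pos f hx0
  obtain ⟨o, ho⟩ := hx x hx0
  rcases o with _ | ⟨i, n⟩
  · exfalso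
    change c * nrm f x ^ 2 ≤ f (eval x q) at ho
    rw [hxq, map_zero] at ho
    have : 0 < c * nrm f x ^ 2 := by positivity
    linarith
  · refine ⟨i, ?_⟩
    change c * nrm f x ^ 1 ≤ f (eval x (lin (g i n))) at ho
    rw [eval_lin, pow_one] at ho
    have h1 : c * nrm f x ≤ nn f (g i) x := ho.trans (le_nn f (g i) x n)
    have h2 := Real.log_le_log (by positivity) h1
    rw [Real.log_mul hc.ne' hN.ne'] at h2
    refine le_trans ?_ (le_max_right _ _)
    unfold lm
    linarith

end alg

end Pool.Agent.N168.QS
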