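import Pool.Agent.N168.QS.Main

/-!
# Vojta's inequality on smooth quadric surfaces at one place
-/

set_option autoImplicit false
set_option linter.unusedSectionVars false

namespace Pool.Agent.N168.QS

open MvPolynomial NumberField IsDedekindDomain Height
open Pool.Agent.W180.OP (Pl av wt nrm le_nrm nrm_pos nrm_nonneg exists_nrm lam lam_eq wt_nonneg
  not_small)
open Pool.Agent.R405 (dot dot_add dot_smul exv Good exists_good)
open Pool.Agent.R405.QS

variable {k K : Type} [Field k] [NumberField k] [Field K] [NumberField K] [Algebra k K]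
variable {t s : ℕ}

/-- the linear forms: tangent planes and planes over `k` -/
def forms (A : Matrix (Fin 4) (Fin 4) k) (P : Fin t → Fin 4 → K) (m : Fin s → Fin 4 → k) :
    Fin t ⊕ Fin s → Fin 4 → K
  | .inl i => fun b => ∑ a, algebraMap k K (A a b) * P i a
  | .inr j => fun b => algebraMap k K (m j b)

/-- normal crossings -/
structure NCk (A : Matrix (Fin 4) (Fin 4) k) (P : Fin t → Fin 4 → K) (m : Fin s → Fin 4 → k) :
    Prop where
  three : ∀ (L : Type) [Field L] [Algebra K L] (y : Fin 4 → L), y ≠ 0 →
    ∑ i, ∑ j, algebraMap K L (algebraMap k K (A i j)) * y i * y j = 0 →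
      ∀ i j l : Fin t ⊕ Fin s, i ≠ j → i ≠ l → j ≠ l →
        ¬ (∑ b, algebraMap K L (forms A P m i b) * y b = 0 ∧
          ∑ b, algebraMap K L (forms A P m j b) * y b = 0 ∧
          ∑ b, algebraMap K L (forms A P m l b) * y b = 0)
  vertex : ∀ (i : Fin t) (l : Fin t ⊕ Fin s), l ≠ .inl i → ∑ b, forms A P m l b * P i b ≠ 0

section bil

variable {M : Type} [Field M] [Algebra k M]

theorem bil (A : Matrix (Fin 4) (Fin 4) k) (E : Fin 4 → Fin 4 → M)
    (hEA : ∀ i j, 2 * algebraMap k M (A i j) =
      E 0 i * E 3 j + E 3 i * E 0 j - E 1 i * E 2 j - E 2 i * E 1 j)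
    {L : Type} [Field L] [Algebra M L] (x y : Fin 4 → L) :
    2 * ∑ i, ∑ j, algebraMap M L (algebraMap k M (A i j)) * x i * y j =
      D x (E 0) * D y (E 3) + D x (E 3) * D y (E 0) - D x (E 1) * D y (E 2) -
        D x (E 2) * D y (E 1) := by
  have h : ∀ i j, 2 * algebraMap M L (algebraMap k M (A i j)) =
      algebraMap M L (E 0 i) * algebraMap M L (E 3 j) +
      algebraMap M L (E 3 i) * algebraMap M L (E 0 j) -
      algebraMap M L (E 1 i) * algebraMap M L (E 2 j) -
      algebraMap M L (E 2 i) * algebraMap M L (E 1 j) := by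
    intro i j
    have := congrArg (algebraMap M L) (hEA i j)
    simpa only [map_mul, map_add, map_sub, map_ofNat] using this
  unfold D
  rw [Finset.sum_mul_sum, Finset.sum_mul_sum, Finset.sum_mul_sum, Finset.sum_mul_sum,
    Finset.mul_sum]
  simp only [← Finset.sum_add_distrib, ← Finset.sum_sub_distrib]
  refine Finset.sum_congr rfl fun i _ => ?_
  rw [Finset.mul_sum]
  refine Finset.sum_congr rfl fun j _ => ?_
  linear_combination (x i * y j) * h i j

theorem D_self (x g : Fin 4 → M) : D x g = dot g x := rfl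

end bil

/-- **Vojta's inequality on smooth quadric surfaces at one place.** -/
theorem vojta (A : Matrix (Fin 4) (Fin 4) k) (hA : A.IsSymm) (hdet : A.det ≠ 0)
    (P : Fin t → Fin 4 → K) (hP0 : ∀ i, P i ≠ 0)
    (hPA : ∀ i, ∑ a, ∑ b, algebraMap k K (A a b) * P i a * P i b = 0) (m : Fin s → Fin 4 → k)
    (hnc : NCk A P m) (F : MvPolynomial (Fin 4) k) (c0 : K) (hc0 : c0 ≠ 0)
    (hF : map (algebraMap k K) F =
      C c0 * (∏ i, lin (forms A P m (.inl i))) * ∏ j, lin (forms A P m (.inr j))) :
    ∃ Z : Finset (Fin 4 → k), (∀ z ∈ Z, z ≠ 0) ∧ ∀ (v : Pl k) (ε : ℝ), 0 < ε →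
      ∃ C : ℝ, ∀ x : Fin 4 → k, x ≠ 0 → ∑ i, ∑ j, A i j * x i * x j = 0 → eval x F ≠ 0 →
        (∀ z ∈ Z, ∑ j, z j * x j ≠ 0) →
        wt v * lam (av v) (t + s) F x ≤ (2 + ε) * logHeight x + C := by
  classical
  obtain ⟨Q, w, hA', hw, hQ⟩ := diag A hA hdet
  obtain ⟨M, hfd, hgal, hi, φ, hφ⟩ := exists_big2 K
    {algebraMap k K (-(w 1 / w 0)), algebraMap k K (-(w 3 / w 2))}
  haveI : NumberField M := { to_charZero := inferInstance, to_finiteDimensional := hfd }
  letI : Algebra K M := φ.toAlgebra
  letI : Algebra k M := (φ.comp (algebraMap k K)).toAlgebra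
  obtain ⟨σ, hσ⟩ := hφ (algebraMap k K (-(w 1 / w 0))) (by simp)
  obtain ⟨ρ, hρ⟩ := hφ (algebraMap k K (-(w 3 / w 2))) (by simp)
  obtain ⟨E, hE, hEA⟩ := exists_E (M := M) A Q w hA' hw hQ σ ρ hσ hρ
  have h2M : (2 : M) ≠ 0 := two_ne_zero
  let P' : Fin t → Fin 4 → M := fun i j => φ (P i j)
  have hP' : ∀ i, P' i ≠ 0 := by
    intro i h
    apply hP0 i
    funext j
    exact (map_eq_zero φ).1 (congrFun h j)
  have hq : ∀ i, dot (E 0) (P' i) * dot (E 3) (P' i) = dot (E 1) (P' i) * dot (E 2) (P' i) := by
    intro i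
    have h1 := bil (L := M) A E hEA (P' i) (P' i)
    have h2 : ∑ a, ∑ b, algebraMap M M (algebraMap k M (A a b)) * P' i a * P' i b = 0 := by
      have h3 := congrArg φ (hPA i)
      rw [map_sum, map_zero] at h3
      rw [← h3]
      refine Finset.sum_congr rfl fun a _ => ?_
      rw [map_sum]
      refine Finset.sum_congr rfl fun b _ => ?_
      rw [map_mul, map_mul]
      rfl
    rw [h2, mul_zero] at h1
    simp only [D_self] at h1
    apply mul_left_cancel₀ h2M
    linear_combination -h1
  choose S T hS hT e0 e1 e2 e3 using fun i =>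
    rank1 (u := fun l => dot (E l) (P' i)) (hq i) (by
      intro h
      apply hP' i
      exact zero_of (L := M) hE fun l => congrFun h l)
  have hPts : Pts E S T P' := ⟨hS, hT, e0, e1, e2, e3⟩
  have hlf : ∀ i b, lf E S T m (.inl i) b = 2 * φ (forms A P m (.inl i) b) := by
    intro i b
    have h1 : φ (forms A P m (.inl i) b) = ∑ a, algebraMap k M (A a b) * P' i a := by
      change φ (∑ a, algebraMap k K (A a b) * P i a) = _
      rw [map_sum]
      exact Finset.sum_congr rfl fun a _ => by rw [map_mul]; rfl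
    have h2 : 2 * ∑ a, algebraMap k M (A a b) * P' i a =
        dot (E 0) (P' i) * E 3 b + dot (E 3) (P' i) * E 0 b - dot (E 1) (P' i) * E 2 b -
          dot (E 2) (P' i) * E 1 b := by
      unfold dot
      simp only [Finset.sum_mul, ← Finset.sum_add_distrib, ← Finset.sum_sub_distrib,
        Finset.mul_sum]
      refine Finset.sum_congr rfl fun a _ => ?_
      linear_combination P' i a * hEA a b
    rw [h1, h2]
    change bf E (orth (S i)) (orth (T i)) b = _
    have f0 := e0 i
    have f1 := e1 i
    have f2 := e2 i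
    have f3 := e3 i
    rw [f0, f1, f2, f3]
    simp only [bf, orth, Matrix.cons_val, Pi.add_apply, Pi.smul_apply, smul_eq_mul]
    ring
  have hlf' : ∀ j b, lf E S T m (.inr j) b = φ (forms A P m (.inr j) b) := fun j b => rfl
  have hdotl : ∀ l x, (∑ b, φ (forms A P m l b) * x b = 0 ↔ dot (lf E S T m l) x = 0) := by
    intro l x
    rcases l with i | j
    · have h1 : dot (lf E S T m (.inl i)) x = 2 * ∑ b, φ (forms A P m (.inl i) b) * x b := by
        unfold dot
        rw [Finset.mul_sum]
        exact Finset.sum_congr rfl fun b _ => by rw [hlf, mul_assoc]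
      rw [h1, mul_eq_zero]
      simp [h2M]
    · rfl
  have hNC : NC E S T m P' := by
    refine ⟨fun L _ _ y hy hqy i j l hij hil hjl ⟨v1, v2, v3⟩ => ?_, fun i l hl h0 => ?_⟩
    · letI : Algebra K L := ((algebraMap M L).comp φ).toAlgebra
      haveI : CharZero L := charZero_of_injective_algebraMap (algebraMap M L).injective
      have h2L : (2 : L) ≠ 0 := two_ne_zero
      have hDl : ∀ l, D y (lf E S T m l) = 0 →
          ∑ b, algebraMap K L (forms A P m l b) * y b = 0 := by
        intro l hl
        rcases l with i | j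
        · have h1 : D y (lf E S T m (.inl i)) =
              2 * ∑ b, algebraMap K L (forms A P m (.inl i) b) * y b := by
            unfold D
            rw [Finset.mul_sum]
            refine Finset.sum_congr rfl fun b _ => ?_
            rw [hlf, map_mul, map_ofNat, mul_assoc]
            rfl
          rw [h1] at hl
          exact (mul_eq_zero.1 hl).resolve_left h2L
        · exact hl
      refine hnc.three L y hy ?_ i j l hij hil hjl ⟨hDl i v1, hDl j v2, hDl l v3⟩
      have h1 := bil (L := L) A E hEA y y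
      have h3 : D y (E 0) * D y (E 3) - D y (E 1) * D y (E 2) = 0 := by
        rw [← hqy, qd, map_sub, map_mul, map_mul, aeval_lin, aeval_lin, aeval_lin, aeval_lin]
      apply mul_left_cancel₀ h2L
      rw [mul_zero]
      refine Eq.trans ?_ (h1.trans ?_)
      · rfl
      · linear_combination 2 * h3
    · rw [← hdotl] at h0
      apply hnc.vertex i l hl
      apply φ.injective
      rw [map_zero, ← h0, map_sum]
      exact Finset.sum_congr rfl fun b _ => by rw [map_mul]
  have hon : ∀ x : Fin 4 → k, ∑ i, ∑ j, A i j * x i * x j = 0 → On E (exv M x) := by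
    intro x hx
    have h1 := bil (L := M) A E hEA (exv M x) (exv M x)
    have h2 : ∑ a, ∑ b, algebraMap M M (algebraMap k M (A a b)) * exv M x a * exv M x b = 0 := by
      have h3 := congrArg (algebraMap k M) hx
      rw [map_sum, map_zero] at h3
      rw [← h3]
      refine Finset.sum_congr rfl fun a _ => ?_
      rw [map_sum]
      refine Finset.sum_congr rfl fun b _ => ?_
      rw [map_mul, map_mul]
      rfl
    rw [h2, mul_zero] at h1
    simp only [D_self] at h1
    unfold On
    apply mul_left_cancel₀ h2M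
    linear_combination -h1
  have hval : ∀ x : Fin 4 → k, algebraMap k M (eval x F) =
      (φ c0 / 2 ^ t) * (∏ i, dot (lf E S T m (.inl i)) (exv M x)) *
        ∏ j, dot (lf E S T m (.inr j)) (exv M x) := by
    intro x
    have h1 : algebraMap k K (eval x F) = c0 * (∏ i, dot (forms A P m (.inl i)) (exv K x)) *
        ∏ j, dot (forms A P m (.inr j)) (exv K x) := by
      have h2 : algebraMap k K (eval x F) = eval (exv K x) (map (algebraMap k K) F) := by
        rw [eval_map]
        exact (eval₂_comp_left (algebraMap k K) (RingHom.id k) x F).trans rfl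
      rw [h2, hF, map_mul, map_mul, eval_C, map_prod, map_prod]
      simp only [eval_lin]
    have h3 : algebraMap k M (eval x F) = φ (algebraMap k K (eval x F)) := rfl
    rw [h3, h1, map_mul, map_mul, map_prod, map_prod]
    have h4 : ∏ i, dot (lf E S T m (.inl i)) (exv M x) =
        2 ^ t * ∏ i, φ (dot (forms A P m (.inl i)) (exv K x)) := by
      have h5 : ∀ i, dot (lf E S T m (.inl i)) (exv M x) =
          2 * φ (dot (forms A P m (.inl i)) (exv K x)) := by
        intro i
        unfold dot
        rw [map_sum, Finset.mul_sum]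
        refine Finset.sum_congr rfl fun b _ => ?_
        rw [hlf, map_mul, mul_assoc]
        rfl
      rw [Finset.prod_congr rfl fun i _ => h5 i, Finset.prod_mul_distrib, Finset.prod_const,
        Finset.card_univ, Fintype.card_fin]
    have h6 : ∀ j, φ (dot (forms A P m (.inr j)) (exv K x)) =
        dot (lf E S T m (.inr j)) (exv M x) := by
      intro j
      unfold dot
      rw [map_sum]
      refine Finset.sum_congr rfl fun b _ => ?_
      rw [map_mul, hlf']
      rfl
    rw [h4, Finset.prod_congr rfl fun j _ => h6 j]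
    have h7 : (2 : M) ^ t ≠ 0 := pow_ne_zero _ h2M
    field_simp
  obtain ⟨Z, hZ, hmain⟩ := levelM (k := k) (M := M) hi hE hPts hNC
    (div_ne_zero ((map_ne_zero φ).2 hc0) (pow_ne_zero t h2M)) F hval
  exact ⟨Z, hZ, fun v ε hε => by
    obtain ⟨C, hC⟩ := hmain v ε hε
    exact ⟨C, fun x hx hxq hxF hxZ => hC x hx (hon x hxq) hxF hxZ⟩⟩

end Pool.Agent.N168.QS
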