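import Pool.Agent.N168.QS.Fin
import Pool.Agent.W180.TP.Fmt

/-!
# Integral points on the complement of a divisor on a quadric surface
-/

set_option autoImplicit false
set_option linter.unusedSectionVars false

namespace Pool.Agent.N168.QS

open MvPolynomial NumberField IsDedekindDomain Height
open Pool.Agent.W180.OP (Pl av wt nrm le_nrm nrm_pos nrm_nonneg exists_nrm lam lam_eq wt_nonneg
  not_small fv bc)
open Pool.Agent.W180.TP (fmt prod_sum northcott)
open scoped LinearAlgebra.Projectivization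

variable {k : Type} [Field k] [NumberField k]

theorem bc_self {n : ℕ} (F : MvPolynomial (Fin n) k) : bc k F = F := by
  rw [bc, Algebra.algebraMap_self, map_id]

/-- integral points have bounded local heights at the primes -/
theorem sum_primes {n d : ℕ} (F : MvPolynomial (Fin n) k) {N : k} (hN : N ≠ 0) {x : Fin n → k}
    (hx : x ≠ 0) (hF : eval x F ≠ 0)
    (hint : ∀ p : HeightOneSpectrum (𝓞 k), fv p N * nrm (fv p) x ^ d ≤ fv p (eval x F)) :
    (d : ℝ) * logHeight x ≤ ∑ w : InfinitePlace k, (w.mult : ℝ) * lam w.1 d F x +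
      ∑ w : InfinitePlace k, (w.mult : ℝ) * Real.log (w.1 N) := by
  classical
  have hF' : aeval x F ≠ 0 := hF
  obtain ⟨hfin, h⟩ := fmt (K := k) (L := k) (d := d) F hx hF' ∅
  rw [bc_self] at hfin h
  rw [Finset.sum_empty, add_zero] at h
  have h1 : ∑ᶠ (v : HeightOneSpectrum (𝓞 k)) (_ : v ∉ (∅ : Finset (HeightOneSpectrum (𝓞 k)))),
      lam (fv v) d F x = ∑ᶠ v : HeightOneSpectrum (𝓞 k), lam (fv v) d F x := by
    refine finsum_congr fun v => ?_
    rw [finsum_eq_if, if_pos (Finset.notMem_empty v)]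
  rw [h1] at h
  have hNfin : {v : HeightOneSpectrum (𝓞 k) | fv v N ≠ 1}.Finite :=
    Pool.Agent.W180.OP.fv_support_finite hN
  set T : Finset (HeightOneSpectrum (𝓞 k)) := hfin.toFinset ∪ hNfin.toFinset with hT
  have hT1 : ∀ v, lam (fv v) d F x ≠ 0 → v ∈ T := fun v hv => by
    rw [hT, Finset.mem_union]
    exact Or.inl ((Set.Finite.mem_toFinset _).2 hv)
  have hT2 : ∀ v, fv v N ≠ 1 → v ∈ T := fun v hv => by
    rw [hT, Finset.mem_union]
    exact Or.inr ((Set.Finite.mem_toFinset _).2 hv)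
  rw [finsum_eq_sum_of_support_subset (s := T) _ (fun v hv => hT1 v hv)] at h
  have h2 := prod_sum hN T hT2
  have h3 : ∑ v ∈ T, lam (fv v) d F x ≤ ∑ v ∈ T, -Real.log (fv v N) := by
    refine Finset.sum_le_sum fun v _ => ?_
    have hNp : 0 < fv v N := (fv v).pos_iff.2 hN
    have hnp := nrm_pos (fv v) hx
    have h4 := Real.log_le_log (by positivity) (hint v)
    rw [Real.log_mul hNp.ne' (pow_pos hnp _).ne', Real.log_pow] at h4
    rw [lam_eq _ _ _ hx hF]
    linarith
  rw [Finset.sum_neg_distrib] at h3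
  linarith

/-- **finiteness** -/
theorem finite {d : ℕ} (hd : 3 ≤ d) {n : ℕ} (F : MvPolynomial (Fin n) k)
    (hone : ∀ w w' : InfinitePlace k, w = w') (B : (Fin n → k) → Prop)
    (hB : ∀ (v : Pl k) (ε : ℝ), 0 < ε → ∃ C : ℝ, ∀ x : Fin n → k, x ≠ 0 → eval x F ≠ 0 → B x →
      wt v * lam (av v) d F x ≤ (2 + ε) * logHeight x + C) {N : k} (hN : N ≠ 0) :
    {P : ℙ k (Fin n → k) | eval P.rep F ≠ 0 ∧ B P.rep ∧ ∀ p : HeightOneSpectrum (𝓞 k),
      fv p N * nrm (fv p) P.rep ^ d ≤ fv p (eval P.rep F)}.Finite := by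
  classical
  obtain ⟨w0⟩ : Nonempty (InfinitePlace k) := inferInstance
  obtain ⟨C, hC⟩ := hB (.inl w0) (1 / 2) (by norm_num)
  refine (northcott (L := k) (n := n)
    (2 * (C + ∑ w : InfinitePlace k, (w.mult : ℝ) * Real.log (w.1 N)))).subset ?_
  rintro P ⟨hF, hBP, hint⟩
  have h1 := sum_primes F hN P.rep_nonzero hF hint
  have h2 := hC P.rep P.rep_nonzero hF hBP
  have h3 : ∑ w : InfinitePlace k, (w.mult : ℝ) * lam w.1 d F P.rep =
      wt (.inl w0 : Pl k) * lam (av (.inl w0 : Pl k)) d F P.rep := by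
    rw [Fintype.sum_eq_single w0 fun w hw => absurd (hone w w0) hw]
    rfl
  rw [h3] at h1
  have h4 : (3 : ℝ) ≤ d := by exact_mod_cast hd
  have h5 := logHeight_nonneg P.rep
  show logHeight P.rep ≤ _
  nlinarith

end Pool.Agent.N168.QS
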