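import Pool.Agent.N168.QS.Alg

/-!
# Vojta's inequality on smooth quadric surfaces at one place: over the large field
-/

set_option autoImplicit false
set_option linter.unusedSectionVars false

namespace Pool.Agent.N168.QS

open MvPolynomial NumberField IsDedekindDomain Height
open Pool.Agent.W180.OP (Pl av wt nrm le_nrm nrm_pos nrm_nonneg exists_nrm lam lam_eq wt_nonneg
  not_small)
open Pool.Agent.R405 (dot dot_add dot_smul exv Good)
open Pool.Agent.R405.QS

section local'

variable {M : Type} [Field M]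

/-- the upper bound for the local height of the bilinear form -/
theorem bf_le (f : AbsoluteValue M ℝ) (E : Fin 4 → Fin 4 → M) (a b : Fin 2 → M) :
    ∃ C : ℝ, 0 ≤ C ∧ ∀ x : Fin 4 → M, x ≠ 0 → On E x →
      0 < nn f (row E a) x → 0 < nn f (row (swp E) b) x → dot (bf E a b) x ≠ 0 →
      Real.log (nrm f x) - Real.log (f (dot (bf E a b) x)) ≤
        lm f (row E a) x + lm f (row (swp E) b) x + C := by
  set B : ℝ := 1 + ∑ l, ∑ j, f (E l j) with hB
  have hS : 0 ≤ ∑ l, ∑ j, f (E l j) :=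
    Finset.sum_nonneg fun _ _ => Finset.sum_nonneg fun _ _ => f.nonneg _
  have hB1 : 1 ≤ B := by linarith
  refine ⟨Real.log B, Real.log_nonneg hB1, fun x hx hon h1 h2 h3 => ?_⟩
  have hN : 0 < nrm f x := nrm_pos f hx
  have hb : 0 < f (dot (bf E a b) x) := f.pos_iff.2 h3
  have hEl : ∀ l, f (dot (E l) x) ≤ B * nrm f x := by
    intro l
    refine (Pool.Agent.R405.abs_dot f _ _).trans (mul_le_mul_of_nonneg_right ?_ hN.le)
    have := Finset.single_le_sum (f := fun l => ∑ j, f (E l j))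
      (fun _ _ => Finset.sum_nonneg fun _ _ => f.nonneg _) (Finset.mem_univ l)
    linarith
  have hprod : ∀ i j : Fin 2, ∃ l : Fin 4,
      dot (row E a j) x * dot (row (swp E) b i) x = dot (bf E a b) x * dot (E l) x := by
    unfold On at hon
    intro i j
    rcases (by decide : ∀ l : Fin 2, l = 0 ∨ l = 1) i with rfl | rfl <;>
    rcases (by decide : ∀ l : Fin 2, l = 0 ∨ l = 1) j with rfl | rfl
    · refine ⟨0, ?_⟩
      rw [dot_row0, dot_col0, dot_bf]
      linear_combination (-(a 1) * b 1) * hon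
    · refine ⟨1, ?_⟩
      rw [dot_row1, dot_col0, dot_bf]
      linear_combination (a 1 * b 0) * hon
    · refine ⟨2, ?_⟩
      rw [dot_row0, dot_col1, dot_bf]
      linear_combination (a 0 * b 1) * hon
    · refine ⟨3, ?_⟩
      rw [dot_row1, dot_col1, dot_bf]
      linear_combination (-(a 0) * b 0) * hon
  have hmax : ∀ g : Fin 2 → Fin 4 → M, ∃ i, nn f g x = f (dot (g i) x) := by
    intro g
    unfold nn
    rcases max_choice (f (dot (g 0) x)) (f (dot (g 1) x)) with h | h
    · exact ⟨0, h⟩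
    · exact ⟨1, h⟩
  obtain ⟨j, hj⟩ := hmax (row E a)
  obtain ⟨i, hi⟩ := hmax (row (swp E) b)
  obtain ⟨l, hl⟩ := hprod i j
  have hkey : nn f (row E a) x * nn f (row (swp E) b) x ≤
      f (dot (bf E a b) x) * (B * nrm f x) := by
    rw [hj, hi, ← map_mul, hl, map_mul]
    exact mul_le_mul_of_nonneg_left (hEl l) hb.le
  have h5 := Real.log_le_log (by positivity) hkey
  rw [Real.log_mul h1.ne' h2.ne', Real.log_mul hb.ne' (by positivity),
    Real.log_mul (by positivity) hN.ne'] at h5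
  unfold lm
  linarith

end local'

variable {k M : Type} [Field k] [NumberField k] [Field M] [NumberField M] [Algebra k M]

/-- the index set of the components -/
abbrev J (t s : ℕ) : Type := (Fin t ⊕ Fin t) ⊕ Fin s

/-- the linear form of a component -/
def par {t s : ℕ} : J t s → Fin t ⊕ Fin s
  | .inl (.inl i) => .inl i
  | .inl (.inr i) => .inl i
  | .inr j => .inr j

/-- the orthogonal vector -/
def orth (s : Fin 2 → M) : Fin 2 → M := ![s 1, -(s 0)]

theorem orth_ne {s : Fin 2 → M} (hs : s ≠ 0) : orth s ≠ 0 := by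
  intro h
  apply hs
  funext i
  rcases (by decide : ∀ l : Fin 2, l = 0 ∨ l = 1) i with rfl | rfl
  · exact neg_eq_zero.1 (congrFun h 1)
  · exact congrFun h 0

/-- the type of a component -/
def tyJ {t s : ℕ} (S T : Fin t → Fin 2 → M) (m : Fin s → Fin 4 → k) : J t s → Ty k M
  | .inl (.inl i) => .ra (orth (S i))
  | .inl (.inr i) => .cb (orth (T i))
  | .inr j => .pl (m j)

/-- the linear forms -/
def lf {t s : ℕ} (E : Fin 4 → Fin 4 → M) (S T : Fin t → Fin 2 → M) (m : Fin s → Fin 4 → k) :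
    Fin t ⊕ Fin s → Fin 4 → M
  | .inl i => bf E (orth (S i)) (orth (T i))
  | .inr j => exv M (m j)

variable {t s : ℕ} {E : Fin 4 → Fin 4 → M} {S T : Fin t → Fin 2 → M} {m : Fin s → Fin 4 → k}

/-- on a component the linear form vanishes -/
theorem par_zero {L : Type} [Field L] [Algebra M L] {y : Fin 4 → L} (c : J t s)
    (h : ∀ n, D y (fm E (tyJ S T m c) n) = 0) : D y (lf E S T m (par c)) = 0 := by
  rcases c with (i | i) | j
  · have h0 := h 0
    have h1 := h 1
    change D y (row E (orth (S i)) 0) = 0 at h0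
    change D y (row E (orth (S i)) 1) = 0 at h1
    rw [D_row0] at h0
    rw [D_row1] at h1
    change D y (bf E (orth (S i)) (orth (T i))) = 0
    rw [D_bf]
    simp only [map_mul]
    linear_combination algebraMap M L (orth (T i) 0) * h0 + algebraMap M L (orth (T i) 1) * h1
  · have h0 := h 0
    have h1 := h 1
    change D y (row (swp E) (orth (T i)) 0) = 0 at h0
    change D y (row (swp E) (orth (T i)) 1) = 0 at h1
    rw [D_col0] at h0
    rw [D_col1] at h1
    change D y (bf E (orth (S i)) (orth (T i))) = 0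
    rw [D_bf]
    simp only [map_mul]
    linear_combination algebraMap M L (orth (S i) 0) * h0 + algebraMap M L (orth (S i) 1) * h1
  · exact h 0

theorem par_eq {c c' : J t s} (h : c ≠ c') (hp : par c = par c') :
    ∃ i, par c = .inl i ∧ ((c = .inl (.inl i) ∧ c' = .inl (.inr i)) ∨
      (c = .inl (.inr i) ∧ c' = .inl (.inl i))) := by
  rcases c with (i | i) | j <;> rcases c' with (i' | i') | j'
  · exact absurd (by rw [Sum.inl.inj hp]) h
  · refine ⟨i, rfl, Or.inl ⟨rfl, ?_⟩⟩
    rw [Sum.inl.inj hp]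
  · exact absurd hp (by simp [par])
  · refine ⟨i, rfl, Or.inr ⟨rfl, ?_⟩⟩
    rw [Sum.inl.inj hp]
  · exact absurd (by rw [Sum.inl.inj hp]) h
  · exact absurd hp (by simp [par])
  · exact absurd hp (by simp [par])
  · exact absurd hp (by simp [par])
  · exact absurd (by rw [Sum.inr.inj hp]) h

theorem par_ne {c c' c'' : J t s} {i : Fin t} (h1 : c ≠ c') (h2 : c ≠ c'') (h3 : c' ≠ c'')
    (hc : par c = .inl i) (hc' : par c' = .inl i) : par c'' ≠ .inl i := by
  intro h
  rcases c with (a | a) | a <;> rcases c' with (b | b) | b <;> rcases c'' with (d | d) | d <;>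
    simp_all [par]

/-- the point with the parameters `S i`, `T i` -/
structure Pts (E : Fin 4 → Fin 4 → M) (S T : Fin t → Fin 2 → M) (P : Fin t → Fin 4 → M) :
    Prop where
  s0 : ∀ i, S i ≠ 0
  t0 : ∀ i, T i ≠ 0
  e0 : ∀ i, dot (E 0) (P i) = S i 0 * T i 0
  e1 : ∀ i, dot (E 1) (P i) = S i 0 * T i 1
  e2 : ∀ i, dot (E 2) (P i) = S i 1 * T i 0
  e3 : ∀ i, dot (E 3) (P i) = S i 1 * T i 1

theorem D_dot {L : Type} [Field L] [Algebra M L] (g x : Fin 4 → M) :
    D (fun j => algebraMap M L (x j)) g = algebraMap M L (dot g x) := by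
  unfold D dot
  rw [map_sum]
  exact Finset.sum_congr rfl fun j _ => by rw [map_mul]

theorem D_scal {L : Type} [Field L] [Algebra M L] (c : L) (y : Fin 4 → L) (g : Fin 4 → M) :
    D (c • y) g = c * D y g := by
  unfold D
  rw [Finset.mul_sum]
  exact Finset.sum_congr rfl fun j _ => by rw [Pi.smul_apply, smul_eq_mul]; ring

theorem D_sub {L : Type} [Field L] [Algebra M L] (y y' : Fin 4 → L) (g : Fin 4 → M) :
    D (y - y') g = D y g - D y' g := by
  unfold D
  rw [← Finset.sum_sub_distrib]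
  exact Finset.sum_congr rfl fun j _ => by rw [Pi.sub_apply]; ring

/-- the common point of two lines with the same linear form -/
theorem Pts.meet (hE : (Matrix.of E).det ≠ 0) {P : Fin t → Fin 4 → M} (hP : Pts E S T P)
    {L : Type} [Field L] [Algebra M L] {y : Fin 4 → L} (i : Fin t)
    (h : ∀ n, D y (row E (orth (S i)) n) = 0) (h' : ∀ n, D y (row (swp E) (orth (T i)) n) = 0) :
    ∃ c : L, y = c • fun j => algebraMap M L (P i j) := by
  have h0 := h 0
  have h1 := h 1
  have h2 := h' 0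
  have h3 := h' 1
  rw [D_row0] at h0
  rw [D_row1] at h1
  rw [D_col0] at h2
  rw [D_col1] at h3
  have o0 : ∀ s : Fin 2 → M, orth s 0 = s 1 := fun _ => rfl
  have o1 : ∀ s : Fin 2 → M, orth s 1 = -(s 0) := fun _ => rfl
  rw [o0, o1, map_neg] at h0 h1 h2 h3
  have hne : ∀ s : Fin 2 → M, s ≠ 0 → algebraMap M L (s 0) ≠ 0 ∨ algebraMap M L (s 1) ≠ 0 := by
    intro s hs
    by_contra hcon
    push Not at hcon
    apply hs
    funext j
    rcases (by decide : ∀ l : Fin 2, l = 0 ∨ l = 1) j with rfl | rfl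
    · exact (map_eq_zero _).1 hcon.1
    · exact (map_eq_zero _).1 hcon.2
  obtain ⟨c, c0, c1, c2, c3⟩ := QS.meet (hne _ (hP.s0 i)) (hne _ (hP.t0 i))
    (e0 := D y (E 0)) (e1 := D y (E 1)) (e2 := D y (E 2)) (e3 := D y (E 3))
    (by linear_combination h0) (by linear_combination h1) (by linear_combination h2)
    (by linear_combination h3)
  refine ⟨c, ?_⟩
  rw [← sub_eq_zero]
  refine zero_of hE fun l => ?_
  rw [D_sub, D_scal, D_dot]
  rcases (by decide : ∀ l : Fin 4, l = 0 ∨ l = 1 ∨ l = 2 ∨ l = 3) l with rfl | rfl | rfl | rfl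
  · rw [hP.e0, c0, map_mul, sub_self]
  · rw [hP.e1, c1, map_mul, sub_self]
  · rw [hP.e2, c2, map_mul, sub_self]
  · rw [hP.e3, c3, map_mul, sub_self]

/-- the equation of the quadric -/
noncomputable def qd (E : Fin 4 → Fin 4 → M) : MvPolynomial (Fin 4) M :=
  lin (E 0) * lin (E 3) - lin (E 1) * lin (E 2)

theorem qd_hom (E : Fin 4 → Fin 4 → M) : (qd E).IsHomogeneous 2 :=
  ((lin_hom (E 0)).mul (lin_hom (E 3))).sub ((lin_hom (E 1)).mul (lin_hom (E 2)))

theorem eval_qd {x : Fin 4 → M} (h : On E x) : eval x (qd E) = 0 := by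
  unfold On at h
  rw [qd, map_sub, map_mul, map_mul, eval_lin, eval_lin, eval_lin, eval_lin, h, sub_self]

/-- normal crossings -/
structure NC (E : Fin 4 → Fin 4 → M) (S T : Fin t → Fin 2 → M) (m : Fin s → Fin 4 → k)
    (P : Fin t → Fin 4 → M) : Prop where
  h3 : ∀ (L : Type) [Field L] [Algebra M L] (y : Fin 4 → L), y ≠ 0 → aeval y (qd E) = 0 →
    ∀ i j l : Fin t ⊕ Fin s, i ≠ j → i ≠ l → j ≠ l →
      ¬ (D y (lf E S T m i) = 0 ∧ D y (lf E S T m j) = 0 ∧ D y (lf E S T m l) = 0)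
  h2 : ∀ (i : Fin t) (l : Fin t ⊕ Fin s), l ≠ .inl i → dot (lf E S T m l) (P i) ≠ 0

/-- two components with the same linear form and a third one -/
theorem NC.two (hE : (Matrix.of E).det ≠ 0) {P : Fin t → Fin 4 → M} (hP : Pts E S T P)
    (hnc : NC E S T m P) {L : Type} [Field L] [Algebra M L] {y : Fin 4 → L} (hy : y ≠ 0)
    {c c' c'' : J t s} (h1 : c ≠ c') (h2 : c ≠ c'') (h3 : c' ≠ c'')
    (v : ∀ n, D y (fm E (tyJ S T m c) n) = 0) (v' : ∀ n, D y (fm E (tyJ S T m c') n) = 0)
    (v'' : ∀ n, D y (fm E (tyJ S T m c'') n) = 0) : par c ≠ par c' := by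
  intro hp
  obtain ⟨i, hi, h⟩ := par_eq h1 hp
  have hne : par c'' ≠ .inl i := par_ne h1 h2 h3 hi (by rw [← hp]; exact hi)
  obtain ⟨d, hd⟩ : ∃ d : L, y = d • fun j => algebraMap M L (P i j) := by
    rcases h with ⟨rfl, rfl⟩ | ⟨rfl, rfl⟩
    · exact hP.meet hE i v v'
    · exact hP.meet hE i v' v
  have h5 := par_zero c'' v''
  rw [hd, D_scal, D_dot] at h5
  rcases mul_eq_zero.1 h5 with h6 | h6
  · apply hy
    rw [hd, h6, zero_smul]
  · exact hnc.h2 i _ hne ((map_eq_zero _).1 h6)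

/-- no three components meet -/
theorem NC.three (hE : (Matrix.of E).det ≠ 0) {P : Fin t → Fin 4 → M} (hP : Pts E S T P)
    (hnc : NC E S T m P) {L : Type} [Field L] [Algebra M L] {y : Fin 4 → L}
    (hq : aeval y (qd E) = 0)
    {c c' c'' : J t s} (h1 : c ≠ c') (h2 : c ≠ c'') (h3 : c' ≠ c'')
    (v : ∀ n, D y (fm E (tyJ S T m c) n) = 0) (v' : ∀ n, D y (fm E (tyJ S T m c') n) = 0)
    (v'' : ∀ n, D y (fm E (tyJ S T m c'') n) = 0) : y = 0 := by
  by_contra hy
  have p1 := hnc.two hE hP hy h1 h2 h3 v v' v''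
  have p2 := hnc.two hE hP hy h2 h1 h3.symm v v'' v'
  have p3 := hnc.two hE hP hy h3 h1.symm h2.symm v' v'' v
  exact hnc.h3 L y hy hq _ _ _ p1 p2 p3 ⟨par_zero c v, par_zero c' v', par_zero c'' v''⟩

/-- the lines are different -/
theorem NC.det {P : Fin t → Fin 4 → M} (hP : Pts E S T P) (hnc : NC E S T m P) {i j : Fin t}
    (h : i ≠ j) : S i 1 * S j 0 - S i 0 * S j 1 ≠ 0 ∧ T i 1 * T j 0 - T i 0 * T j 1 ≠ 0 := by
  have h1 := hnc.h2 j (.inl i) (fun h' => h (Sum.inl.inj h'))
  change dot (bf E (orth (S i)) (orth (T i))) (P j) ≠ 0 at h1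
  rw [dot_bf, hP.e0, hP.e1, hP.e2, hP.e3] at h1
  have h2 : orth (S i) 0 * orth (T i) 0 * (S j 0 * T j 0) +
      orth (S i) 0 * orth (T i) 1 * (S j 0 * T j 1) + orth (S i) 1 * orth (T i) 0 * (S j 1 * T j 0) +
      orth (S i) 1 * orth (T i) 1 * (S j 1 * T j 1) =
      (S i 1 * S j 0 - S i 0 * S j 1) * (T i 1 * T j 0 - T i 0 * T j 1) := by
    simp only [orth, Matrix.cons_val]
    ring
  rw [h2] at h1
  exact ⟨left_ne_zero_of_mul h1, right_ne_zero_of_mul h1⟩

end Pool.Agent.N168.QS
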