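import Pool.Agent.N168.QS.Lev

/-!
# Vojta's inequality on smooth quadric surfaces at one place: the inequality over the large field
-/

set_option autoImplicit false
set_option linter.unusedSectionVars false

namespace Pool.Agent.N168.QS

open MvPolynomial NumberField IsDedekindDomain Height
open Pool.Agent.W180.OP (Pl av wt nrm le_nrm nrm_pos nrm_nonneg exists_nrm lam lam_eq wt_nonneg
  not_small)
open Pool.Agent.R405 (dot dot_add dot_smul exv Good exists_good)
open Pool.Agent.R405.QS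

variable {k M : Type} [Field k] [NumberField k] [Field M] [NumberField M] [Algebra k M]
variable {t s : ℕ} {E : Fin 4 → Fin 4 → M} {S T : Fin t → Fin 2 → M} {m : Fin s → Fin 4 → k}

/-- two lines of the first ruling -/
theorem sep_rr (hE : (Matrix.of E).det ≠ 0) {a b : Fin 2 → M} (hab : a 1 * b 0 - a 0 * b 1 ≠ 0)
    (f : AbsoluteValue M ℝ) : ∃ C : ℝ, 0 ≤ C ∧ ∀ x : Fin 4 → M, x ≠ 0 →
      min (lm f (row E (orth a)) x) (lm f (row E (orth b)) x) ≤ C := by
  obtain ⟨C, hC, h⟩ := sep (ι := Bool) (0 : MvPolynomial (Fin 4) M)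
    (MvPolynomial.isHomogeneous_zero _ _ _)
    (fun c => if c then row E (orth a) else row E (orth b)) (by
      intro L _ _ y _ hy
      have a0 := hy true 0
      have a1 := hy true 1
      have b0 := hy false 0
      have b1 := hy false 1
      simp only [if_true, Bool.false_eq_true, if_false] at a0 a1 b0 b1
      rw [D_row0] at a0 b0
      rw [D_row1] at a1 b1
      have o0 : ∀ s : Fin 2 → M, orth s 0 = s 1 := fun _ => rfl
      have o1 : ∀ s : Fin 2 → M, orth s 1 = -(s 0) := fun _ => rfl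
      rw [o0, o1, map_neg] at a0 a1 b0 b1
      have hne : algebraMap M L (a 1) * algebraMap M L (b 0) -
          algebraMap M L (a 0) * algebraMap M L (b 1) ≠ 0 := by
        rw [← map_mul, ← map_mul, ← map_sub]
        exact (map_ne_zero _).2 hab
      refine zero_of hE fun l => ?_
      rcases (by decide : ∀ l : Fin 4, l = 0 ∨ l = 1 ∨ l = 2 ∨ l = 3) l with
        rfl | rfl | rfl | rfl
      · refine (mul_eq_zero.1 (?_ : (_ : L) * _ = 0)).resolve_left hne
        linear_combination algebraMap M L (b 0) * a0 - algebraMap M L (a 0) * b0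
      · refine (mul_eq_zero.1 (?_ : (_ : L) * _ = 0)).resolve_left hne
        linear_combination algebraMap M L (b 0) * a1 - algebraMap M L (a 0) * b1
      · refine (mul_eq_zero.1 (?_ : (_ : L) * _ = 0)).resolve_left hne
        linear_combination algebraMap M L (b 1) * a0 - algebraMap M L (a 1) * b0
      · refine (mul_eq_zero.1 (?_ : (_ : L) * _ = 0)).resolve_left hne
        linear_combination algebraMap M L (b 1) * a1 - algebraMap M L (a 1) * b1) f
  refine ⟨C, hC, fun x hx => ?_⟩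
  obtain ⟨c, hc⟩ := h x hx (map_zero _)
  cases c
  · exact (min_le_right _ _).trans hc
  · exact (min_le_left _ _).trans hc

/-- three components -/
theorem sep3 (hE : (Matrix.of E).det ≠ 0) {P : Fin t → Fin 4 → M} (hP : Pts E S T P)
    (hnc : NC E S T m P) {c c' c'' : J t s} (h1 : c ≠ c') (h2 : c ≠ c'') (h3 : c' ≠ c'')
    (f : AbsoluteValue M ℝ) : ∃ C : ℝ, 0 ≤ C ∧ ∀ x : Fin 4 → M, x ≠ 0 → On E x →
      min (lm f (fm E (tyJ S T m c)) x) (min (lm f (fm E (tyJ S T m c')) x)
        (lm f (fm E (tyJ S T m c'')) x)) ≤ C := by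
  obtain ⟨C, hC, h⟩ := sep (ι := Fin 3) (qd E) (qd_hom E)
    (fun a => fm E (tyJ S T m ((![c, c', c''] : Fin 3 → J t s) a))) (by
      intro L _ _ y hq hy
      exact hnc.three hE hP hq h1 h2 h3 (hy 0) (hy 1) (hy 2)) f
  refine ⟨C, hC, fun x hx hon => ?_⟩
  obtain ⟨a, ha⟩ := h x hx (eval_qd hon)
  rcases (by decide : ∀ l : Fin 3, l = 0 ∨ l = 1 ∨ l = 2) a with rfl | rfl | rfl
  · exact (min_le_left _ _).trans ha
  · exact (min_le_right _ _).trans ((min_le_left _ _).trans ha)
  · exact (min_le_right _ _).trans ((min_le_right _ _).trans ha)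

theorem dot_row_self (hP : ∀ i, S i ≠ 0) {P : Fin t → Fin 4 → M} (hPt : Pts E S T P) (i : Fin t) :
    dot (row E (orth (S i)) 0) (P i) = 0 ∧ dot (row E (orth (S i)) 1) (P i) = 0 ∧
    dot (row (swp E) (orth (T i)) 0) (P i) = 0 ∧ dot (row (swp E) (orth (T i)) 1) (P i) = 0 := by
  rw [dot_row0, dot_row1, dot_col0, dot_col1, hPt.e0, hPt.e1, hPt.e2, hPt.e3]
  simp only [orth, Matrix.cons_val]
  refine ⟨?_, ?_, ?_, ?_⟩ <;> ring

/-- the residual lines -/
theorem oth_ne (hE : (Matrix.of E).det ≠ 0) {a : Fin 2 → M} (ha : a ≠ 0) {g x : Fin 4 → M}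
    (h0 : dot (row E a 0) x = 0) (h1 : dot (row E a 1) x = 0) (hg : dot g x ≠ 0) :
    oth E g a ≠ 0 := by
  intro h
  have e0 := oth0 E hE g a x
  have e1 := oth1 E hE g a x
  rw [h] at e0 e1
  have z0 : dot (row (swp E) (0 : Fin 2 → M) 0) x = 0 := by
    rw [dot_col0]
    simp
  have z1 : dot (row (swp E) (0 : Fin 2 → M) 1) x = 0 := by
    rw [dot_col1]
    simp
  rw [z0, h0, h1] at e0
  rw [z1, h0, h1] at e1
  apply ha
  funext i
  rcases (by decide : ∀ l : Fin 2, l = 0 ∨ l = 1) i with rfl | rfl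
  · refine (mul_eq_zero.1 (?_ : a 0 * dot g x = 0)).resolve_right hg
    linear_combination -e1
  · refine (mul_eq_zero.1 (?_ : a 1 * dot g x = 0)).resolve_right hg
    linear_combination e0

/-- **The inequality over the large field.** -/
theorem levelM [IsGalois ℚ M] (hi : ∃ z : M, z ^ 2 = -1) (hE : (Matrix.of E).det ≠ 0)
    {P : Fin t → Fin 4 → M} (hP : Pts E S T P) (hnc : NC E S T m P) {c0 : M} (hc0 : c0 ≠ 0)
    (F : MvPolynomial (Fin 4) k)
    (hF : ∀ x : Fin 4 → k, algebraMap k M (eval x F) =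
      c0 * (∏ i, dot (lf E S T m (.inl i)) (exv M x)) * ∏ j, dot (lf E S T m (.inr j)) (exv M x)) :
    ∃ Z : Finset (Fin 4 → k), (∀ z ∈ Z, z ≠ 0) ∧ ∀ (v : Pl k) (ε : ℝ), 0 < ε →
      ∃ C : ℝ, ∀ x : Fin 4 → k, x ≠ 0 → On E (exv M x) → eval x F ≠ 0 →
        (∀ z ∈ Z, ∑ j, z j * x j ≠ 0) →
        wt v * lam (av v) (t + s) F x ≤ (2 + ε) * logHeight x + C := by
  classical
  let e : Fin (Fintype.card (J t s)) ≃ J t s := (Fintype.equivFin (J t s)).symm
  have hSS : ∀ i, orth (S i) ≠ 0 := fun i => orth_ne (hP.s0 i)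
  have hTT : ∀ i, orth (T i) ≠ 0 := fun i => orth_ne (hP.t0 i)
  have hra : ∀ (c : J t s) a, tyJ S T m c = .ra a → ∃ i, c = .inl (.inl i) ∧ a = orth (S i) := by
    rintro ((i | i) | j) a h
    · exact ⟨i, rfl, (Ty.ra.inj h).symm⟩
    · cases h
    · cases h
  have hcb : ∀ (c : J t s) a, tyJ S T m c = .cb a → ∃ i, c = .inl (.inr i) ∧ a = orth (T i) := by
    rintro ((i | i) | j) a h
    · cases h
    · exact ⟨i, rfl, (Ty.cb.inj h).symm⟩
    · cases h
  have hpl : ∀ (c : J t s) a, tyJ S T m c = .pl a → ∃ i, c = .inr i ∧ a = m i := by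
    rintro ((i | i) | j) a h
    · cases h
    · cases h
    · exact ⟨j, rfl, (Ty.pl.inj h).symm⟩
  have hsE := swp_det hE
  obtain ⟨Z, hZ, hmain⟩ := quadK (k := k) hi E hE (fun c => tyJ S T m (e c))
    (by
      refine ⟨?_, ?_, ?_, ?_⟩
      · intro c a h
        obtain ⟨i, -, rfl⟩ := hra _ _ h
        exact hSS i
      · intro c a h
        obtain ⟨i, -, rfl⟩ := hcb _ _ h
        exact hTT i
      · intro c a c' g h h'
        obtain ⟨i, -, rfl⟩ := hra _ _ h
        obtain ⟨j, -, rfl⟩ := hpl _ _ h'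
        obtain ⟨d0, d1, -, -⟩ := dot_row_self (E := E) (S := S) (T := T) hP.s0 hP i
        exact oth_ne hE (hSS i) d0 d1 (hnc.h2 i (.inr j) (by simp))
      · intro c a c' g h h'
        obtain ⟨i, -, rfl⟩ := hcb _ _ h
        obtain ⟨j, -, rfl⟩ := hpl _ _ h'
        obtain ⟨-, -, d0, d1⟩ := dot_row_self (E := E) (S := S) (T := T) hP.s0 hP i
        exact oth_ne hsE (hTT i) d0 d1 (hnc.h2 i (.inr j) (by simp)))
    (by
      intro c c' a a' hcc h h' f
      obtain ⟨i, hi', rfl⟩ := hra _ _ h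
      obtain ⟨j, hj', rfl⟩ := hra _ _ h'
      have hij : i ≠ j := by
        rintro rfl
        exact hcc (e.injective (hi'.trans hj'.symm))
      obtain ⟨C, hC, h5⟩ := sep_rr hE (hnc.det hP hij).1 f
      exact ⟨C, hC, fun x hx _ _ => h5 x hx⟩)
    (by
      intro c c' a a' hcc h h' f
      obtain ⟨i, hi', rfl⟩ := hcb _ _ h
      obtain ⟨j, hj', rfl⟩ := hcb _ _ h'
      have hij : i ≠ j := by
        rintro rfl
        exact hcc (e.injective (hi'.trans hj'.symm))
      obtain ⟨C, hC, h5⟩ := sep_rr hsE (hnc.det hP hij).2 f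
      exact ⟨C, hC, fun x hx _ _ => h5 x hx⟩)
    (by
      intro c c' c'' h1 h2 h3 f
      obtain ⟨C, hC, h5⟩ := sep3 hE hP hnc (fun h => h1 (e.injective h))
        (fun h => h2 (e.injective h)) (fun h => h3 (e.injective h)) f
      exact ⟨C, hC, fun x hx hon _ => h5 x hx hon⟩)
  refine ⟨Z, hZ, fun v ε hε => ?_⟩
  obtain ⟨f, hf⟩ := exists_good (K := M) v
  obtain ⟨C, hC⟩ := hmain v f hf ε hε
  choose B hB0 hB using fun i : Fin t => bf_le f E (orth (S i)) (orth (T i))
  refine ⟨C + wt v * (∑ i, B i - Real.log (f c0)), fun x hx hon hFx hxZ => ?_⟩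
  have hval := hF x
  have hne : algebraMap k M (eval x F) ≠ 0 := (map_ne_zero _).2 hFx
  rw [hval] at hne
  have hn1 : ∀ i, dot (lf E S T m (.inl i)) (exv M x) ≠ 0 := fun i =>
    Finset.prod_ne_zero_iff.1 (right_ne_zero_of_mul (left_ne_zero_of_mul hne)) i
      (Finset.mem_univ i)
  have hn2 : ∀ j, dot (lf E S T m (.inr j)) (exv M x) ≠ 0 := fun j =>
    Finset.prod_ne_zero_iff.1 (right_ne_zero_of_mul hne) j (Finset.mem_univ j)
  have hx' : exv M x ≠ 0 := by
    intro h
    apply hx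
    funext j
    exact (map_eq_zero (algebraMap k M)).1 (congrFun h j)
  obtain ⟨hpos, hle⟩ := hC x hx hon hxZ (by
    intro c g h
    obtain ⟨j, -, rfl⟩ := hpl _ _ h
    intro h0
    apply hn2 j
    change dot (exv M (m j)) (exv M x) = 0
    have h6 := congrArg (algebraMap k M) h0
    rw [map_sum, map_zero] at h6
    rw [← h6]
    unfold dot exv
    exact Finset.sum_congr rfl fun a _ => by rw [map_mul])
  have hw := wt_nonneg v
  have hnrm : nrm f (exv M x) = nrm (av v) x := hf.nrm_ext x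
  have hfF : av v (eval x F) = f c0 * (∏ i, f (dot (lf E S T m (.inl i)) (exv M x))) *
      ∏ j, f (dot (lf E S T m (.inr j)) (exv M x)) := by
    rw [← hf.ext, hval, map_mul, map_mul, map_prod, map_prod]
  have hposF : 0 < f c0 := f.pos_iff.2 hc0
  have hlog : Real.log (av v (eval x F)) = Real.log (f c0) +
      ∑ i, Real.log (f (dot (lf E S T m (.inl i)) (exv M x))) +
      ∑ j, Real.log (f (dot (lf E S T m (.inr j)) (exv M x))) := by
    rw [hfF, Real.log_mul, Real.log_mul hposF.ne', Real.log_prod, Real.log_prod]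
    · intro j _
      exact (f.pos_iff.2 (hn2 j)).ne'
    · intro i _
      exact (f.pos_iff.2 (hn1 i)).ne'
    · exact Finset.prod_ne_zero_iff.2 fun i _ => (f.pos_iff.2 (hn1 i)).ne'
    · exact mul_ne_zero hposF.ne' (Finset.prod_ne_zero_iff.2 fun i _ => (f.pos_iff.2 (hn1 i)).ne')
    · exact Finset.prod_ne_zero_iff.2 fun j _ => (f.pos_iff.2 (hn2 j)).ne'
  have hposJ : ∀ c : J t s, 0 < nn f (fm E (tyJ S T m c)) (exv M x) := by
    intro c
    have := hpos (e.symm c)
    simpa using this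
  have hsum : ∑ c, lm f (fm E (tyJ S T m (e c))) (exv M x) =
      ∑ c : J t s, lm f (fm E (tyJ S T m c)) (exv M x) :=
    e.sum_comp (fun c => lm f (fm E (tyJ S T m c)) (exv M x))
  have hsum2 : ∑ c : J t s, lm f (fm E (tyJ S T m c)) (exv M x) =
      ∑ i, (lm f (row E (orth (S i))) (exv M x) + lm f (row (swp E) (orth (T i))) (exv M x)) +
      ∑ j, lm f (fun _ => exv M (m j)) (exv M x) := by
    rw [Fintype.sum_sum_type, Fintype.sum_sum_type, Finset.sum_add_distrib]
    rfl
  have hbound : ∀ i, Real.log (nrm (av v) x) - Real.log (f (dot (lf E S T m (.inl i)) (exv M x))) ≤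
      lm f (row E (orth (S i))) (exv M x) + lm f (row (swp E) (orth (T i))) (exv M x) + B i := by
    intro i
    rw [← hnrm]
    exact hB i (exv M x) hx' hon (hposJ (.inl (.inl i))) (hposJ (.inl (.inr i))) (hn1 i)
  have hplane : ∀ j, Real.log (nrm (av v) x) - Real.log (f (dot (lf E S T m (.inr j)) (exv M x))) =
      lm f (fun _ => exv M (m j)) (exv M x) := by
    intro j
    rw [← hnrm]
    unfold lm nn
    rw [max_self]
    rfl
  have hlam : lam (av v) (t + s) F x ≤
      ∑ c, lm f (fm E (tyJ S T m (e c))) (exv M x) + (∑ i, B i - Real.log (f c0)) := by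
    rw [lam_eq _ _ _ hx hFx, hlog, hsum, hsum2]
    have h7 : ((t + s : ℕ) : ℝ) * Real.log (nrm (av v) x) =
        ∑ _i : Fin t, Real.log (nrm (av v) x) + ∑ _j : Fin s, Real.log (nrm (av v) x) := by
      simp only [Finset.sum_const, Finset.card_univ, Fintype.card_fin, nsmul_eq_mul]
      push_cast
      ring
    rw [h7]
    have h8 := Finset.sum_le_sum fun i (_ : i ∈ Finset.univ) => hbound i
    have h9 := Finset.sum_congr rfl fun j (_ : j ∈ Finset.univ) => hplane j
    rw [Finset.sum_sub_distrib, Finset.sum_add_distrib] at h8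
    rw [Finset.sum_sub_distrib] at h9
    linarith
  have h10 := mul_le_mul_of_nonneg_left hlam hw
  rw [mul_add] at h10
  linarith

end Pool.Agent.N168.QS
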